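import Pool.Agent.H7.OC.Fin

set_option autoImplicit false

/-!
# The Waiter-Client odd cycle game: threshold bias with both conventions for the last round

Let `b(n)` be the largest `q` for which Waiter wins the `(1 : q)` Waiter-Client odd cycle game on `K_n`.
There are two conventions for a last round with fewer than `q + 1` edges.

* `waiterTakesAll` (Waiter takes them all): with `artanh c₀ - c₀ = 2`, `1 / c₀ = 1.00502...`,
  `n / c₀ - n exp (- (log n) ^ (1/3) / 300) ≤ b(n) ≤ n / c₀`; the lower bound for large `n`, and it holds for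
  both conventions; the upper bound for all `n`.
* `clientTakesOne` (Client has to take one of them, the wording of the problem file): `b(n) / n → ∞`. More
  precisely `c n ^ (6/5) ≤ b(n) ≤ n ^ (3/2)` for all large `n`, and `b(n) ≥ n ^ (3/2) / 8` for infinitely
  many `n`; the game is not monotone in the bias, and when `q + 1` divides `n (n - 1) / 2` Client wins for every
  `q + 1 > n / c₀`.

In both cases the answer to the question whether `b(n) = (1 + o(1)) n` is no.
-/

namespace Pool.Agent.Results.MP_153aba_co.BothConventions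

open Filter Topology Pool.Agent.H28R3 Pool.Agent.H7.OC

/-- The error term of the threshold for the convention `waiterTakesAll`. -/
noncomputable def err (n : ℕ) : ℝ := n * Real.exp (-(Real.log n ^ (1 / 3 : ℝ) / 300))

theorem tendsto_err : Tendsto (fun n : ℕ => err n / n) atTop (𝓝 0) := by
  have h1 : Tendsto (fun n : ℕ => Real.exp (-(cl n / 300))) atTop (𝓝 0) :=
    Real.tendsto_exp_neg_atTop_nhds_zero.comp (cl_tendsto.atTop_div_const (by norm_num))
  refine h1.congr' ?_
  filter_upwards [eventually_ge_atTop 1] with n hn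
  have : (n : ℝ) ≠ 0 := by positivity
  unfold err cl
  field_simp

/-- **Both conventions.** -/
theorem result :
    ∃ c₀ : ℝ, 0 < c₀ ∧ c₀ < 1 ∧ (Real.log (1 + c₀) - Real.log (1 - c₀)) / 2 - c₀ = 2 ∧
      1.005 < 1 / c₀ ∧ 1 / c₀ < 1.00503 ∧
      -- Waiter takes the rest
      (∀ n : ℕ, (threshold LastRound.waiterTakesAll n : ℝ) ≤ n / c₀) ∧
      (∀ᶠ n : ℕ in atTop, ∀ r : LastRound, n / c₀ - err n ≤ (threshold r n : ℝ) ∧
        ∀ q : ℕ, n ≤ q → (q : ℝ) ≤ n / c₀ - err n → WaiterWins r n q) ∧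
      Tendsto (fun n : ℕ => (threshold LastRound.waiterTakesAll n : ℝ) / n) atTop (𝓝 (1 / c₀)) ∧
      -- Client takes one
      (∃ c : ℝ, 0 < c ∧ ∀ᶠ n : ℕ in atTop,
        c * (n : ℝ) ^ (6 / 5 : ℝ) ≤ threshold LastRound.clientTakesOne n) ∧
      (∀ (r : LastRound) (n : ℕ), (threshold r n : ℝ) ≤ (n : ℝ) ^ (3 / 2 : ℝ)) ∧
      (∃ᶠ n : ℕ in atTop, (n : ℝ) ^ (3 / 2 : ℝ) / 8 ≤ threshold LastRound.clientTakesOne n) ∧
      Tendsto (fun n : ℕ => (threshold LastRound.clientTakesOne n : ℝ) / n) atTop atTop ∧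
      (∀ (r : LastRound) (n q : ℕ), (n : ℝ) / c₀ < q + 1 → q + 1 ∣ n.choose 2 → ¬ WaiterWins r n q) ∧
      (∃ᶠ n : ℕ in atTop, ∃ q₁ q₂ : ℕ, q₁ < q₂ ∧ ¬ WaiterWins LastRound.clientTakesOne n q₁ ∧
        WaiterWins LastRound.clientTakesOne n q₂) ∧
      -- the answer to the question
      ∀ r : LastRound, ¬ Tendsto (fun n : ℕ => (threshold r n : ℝ) / n) atTop (𝓝 1) := by
  obtain ⟨c₀, h1, h2, h3⟩ := exists_root
  have hc0 : 0 < c₀ := by linarith
  have hc1 : c₀ < 1 := by
    have : (200 / 201 : ℝ) < 1 := by norm_num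
    linarith
  have hinv1 : 1.005 < 1 / c₀ := by
    rw [lt_div_iff₀ hc0]
    have : (1.005 : ℝ) * (200 / 201) = 1 := by norm_num
    nlinarith
  have hinv2 : 1 / c₀ < 1.00503 := by
    rw [div_lt_iff₀ hc0]
    nlinarith
  have hrate := threshold_rate h1 h2 h3
  have hrate' : ∀ᶠ n : ℕ in atTop, ∀ r : LastRound, n / c₀ - err n ≤ (threshold r n : ℝ) ∧
        ∀ q : ℕ, n ≤ q → (q : ℝ) ≤ n / c₀ - err n → WaiterWins r n q := hrate
  have hlim : Tendsto (fun n : ℕ => (threshold LastRound.waiterTakesAll n : ℝ) / n) atTop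
      (𝓝 (1 / c₀)) := by
    have hlow : Tendsto (fun n : ℕ => 1 / c₀ - err n / n) atTop (𝓝 (1 / c₀)) := by
      have := (tendsto_const_nhds (x := 1 / c₀)).sub tendsto_err
      rwa [sub_zero] at this
    refine tendsto_of_tendsto_of_tendsto_of_le_of_le' hlow tendsto_const_nhds ?_ ?_
    · filter_upwards [hrate', eventually_ge_atTop 1] with n hn hn1
      have hn0 : (0 : ℝ) < n := by exact_mod_cast hn1
      rw [le_div_iff₀ hn0]
      have := (hn LastRound.waiterTakesAll).1
      refine le_trans (le_of_eq ?_) this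
      field_simp
    · filter_upwards [eventually_ge_atTop 1] with n hn1
      have hn0 : (0 : ℝ) < n := by exact_mod_cast hn1
      rw [div_le_iff₀ hn0]
      have := threshold_le h1 h2 h3 n
      refine this.trans (le_of_eq ?_)
      ring
  have hpow := threshold_power
  have hinf : Tendsto (fun n : ℕ => (threshold LastRound.clientTakesOne n : ℝ) / n) atTop atTop := by
    obtain ⟨c, hc, hev⟩ := hpow
    have h4 : Tendsto (fun n : ℕ => c * (n : ℝ) ^ (1 / 5 : ℝ)) atTop atTop :=
      ((tendsto_rpow_atTop (by norm_num)).comp tendsto_natCast_atTop_atTop).const_mul_atTop hc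
    refine tendsto_atTop_mono' _ ?_ h4
    filter_upwards [hev, eventually_ge_atTop 1] with n hn hn1
    have hn0 : (0 : ℝ) < n := by exact_mod_cast hn1
    rw [le_div_iff₀ hn0]
    refine le_trans (le_of_eq ?_) hn
    rw [show (6 / 5 : ℝ) = 1 / 5 + 1 by norm_num, Real.rpow_add hn0, Real.rpow_one]
    ring
  have hfreq : ∀ {P : ℕ → Prop} {g : ℕ → ℕ}, (∀ w, w ≤ g w) → (∀ w, 2 ≤ w → P (g w)) →
      ∃ᶠ n : ℕ in atTop, P n := by
    intro P g hg hP
    rw [frequently_atTop]
    intro a
    refine ⟨g (a + 2), ?_, hP _ (by omega)⟩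
    have := hg (a + 2)
    omega
  refine ⟨c₀, hc0, hc1, h3, hinv1, hinv2, threshold_le h1 h2 h3, hrate', hlim, hpow, threshold_cube,
    ?_, hinf, ?_, ?_, ?_⟩
  · refine hfreq (g := fun v => 60 * v ^ 2 + 2) (fun v => ?_) (fun v hv => threshold_special (by omega))
    have : v ≤ v ^ 2 := Nat.le_self_pow (by norm_num) v
    show v ≤ 60 * v ^ 2 + 2
    omega
  · intro r n q hq hdvd
    refine client_dvd h1 h2 h3 ?_ hdvd r
    rw [div_lt_iff₀ hc0] at hq
    linarith
  · refine hfreq (g := fun w => 60 * (31 * w + 1) ^ 2 + 2) (fun w => ?_) (fun w hw => ?_)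
    · have : 31 * w + 1 ≤ (31 * w + 1) ^ 2 := Nat.le_self_pow (by norm_num) _
      show w ≤ 60 * (31 * w + 1) ^ 2 + 2
      omega
    · obtain ⟨n, q₁, q₂, rfl, h4, h5, h6⟩ := not_monotone h1 h2 h3 hw LastRound.clientTakesOne
      exact ⟨q₁, q₂, h4, h5, h6⟩
  · intro r hcon
    cases r with
    | clientTakesOne => exact not_tendsto_nhds_of_tendsto_atTop hinf 1 hcon
    | waiterTakesAll =>
      have := tendsto_nhds_unique hlim hcon
      linarith

end Pool.Agent.Results.MP_153aba_co.BothConventions
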